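import Pool.Agent.V1190.SpecIFS

open MeasureTheory Set Filter Topology
open scoped ENNReal NNReal
open Pool.Agent.V1190.SpecIFS

namespace Pool.Agent.Results.MP_b5d711_an.NoType

/-- `F` is a union of finitely many intervals (degenerate ones allowed). -/
def TypeI (F : Set ℝ) : Prop :=
  ∃ (n : ℕ) (I : Fin n → Set ℝ), (∀ i, (I i).OrdConnected) ∧ F = ⋃ i, I i

/-- `F` has Hausdorff dimension zero. -/
def TypeII (F : Set ℝ) : Prop := dimH F = 0

/-- There is `c` with `0 < c < sup F` and `dim_x F = min 1 (c / x)` for every `x` in `F`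
(for `x = 0` the quotient is infinite and the value is `1`). -/
def TypeIII (F : Set ℝ) : Prop :=
  ∃ c : ℝ, 0 < c ∧ c < sSup F ∧
    ∀ x ∈ F, localDim F x = min 1 (ENNReal.ofReal c / ENNReal.ofReal x)

lemma not_typeI : ¬ TypeI (spectrum (Icc (0 : ℝ) 1) φ) := by
  rintro ⟨n, I, hI, hF⟩
  have hsub : ∀ i, (I i ∩ Ioi (1 / 2)).Subsingleton := by
    intro i
    have hlt : ∀ x ∈ I i ∩ Ioi (1 / 2), ∀ y ∈ I i ∩ Ioi (1 / 2), ¬ x < y := by
      intro x hx y hy hxy
      have hx2 : 1 / 2 < x := hx.2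
      have h1 : Icc x y ⊆ spectrum (Icc (0 : ℝ) 1) φ ∩ Ici (1 / 2 + (x - 1 / 2)) := by
        intro z hz
        refine ⟨?_, by rw [mem_Ici]; linarith [hz.1]⟩
        rw [hF]
        exact mem_iUnion.2 ⟨i, (hI i).out hx.1 hy.1 hz⟩
      have h2 := dimH_mono h1
      rw [dim_Icc_one hxy, dim_above (by linarith)] at h2
      exact absurd h2 (by simp)
    intro x hx y hy
    rcases lt_trichotomy x y with h | h | h
    · exact absurd h (hlt x hx y hy)
    · exact h
    · exact absurd h (hlt y hy x hx)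
  have hfin : (spectrum (Icc (0 : ℝ) 1) φ ∩ Ioi (1 / 2)).Finite := by
    rw [hF, iUnion_inter]
    exact finite_iUnion fun i => (hsub i).finite
  have hclosed : IsClosed (spectrum (Icc (0 : ℝ) 1) φ ∩ Ioi (1 / 2)) := hfin.isClosed
  have hnot : (1 / 2 : ℝ) ∈ (spectrum (Icc (0 : ℝ) 1) φ ∩ Ioi (1 / 2))ᶜ :=
    fun h => lt_irrefl (1 / 2 : ℝ) (mem_Ioi.1 h.2)
  obtain ⟨ε, hε, hball⟩ := Metric.isOpen_iff.1 hclosed.isOpen_compl _ hnot
  obtain ⟨x, hx, hx1, hx2⟩ := mem_spectrum_above hε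
  have h3 : x ∈ Metric.ball (1 / 2 : ℝ) ε := by
    rw [Metric.mem_ball, Real.dist_eq, abs_of_pos (by linarith)]
    linarith
  exact hball h3 ⟨hx, hx1⟩

lemma not_typeII : ¬ TypeII (spectrum (Icc (0 : ℝ) 1) φ) := by
  intro h
  unfold TypeII at h
  have h1 : Icc (1 / 4 : ℝ) (1 / 2) ⊆ spectrum (Icc (0 : ℝ) 1) φ := fun y hy =>
    mem_spectrum_low (by linarith [hy.1]) hy.2
  have h2 := dimH_mono h1
  rw [dim_Icc_one (by norm_num), h] at h2
  exact absurd h2 (by simp)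

lemma not_typeIII : ¬ TypeIII (spectrum (Icc (0 : ℝ) 1) φ) := by
  rintro ⟨c, hc, -, h⟩
  obtain ⟨x, hx, hx1, hx2⟩ := mem_spectrum_above one_pos
  have h1 := h x hx
  rw [localDim_above hx1] at h1
  have h2 : 0 < min 1 (ENNReal.ofReal c / ENNReal.ofReal x) :=
    lt_min one_pos (ENNReal.div_pos (by simpa using hc) ENNReal.ofReal_ne_top)
  rw [← h1] at h2
  exact lt_irrefl _ h2

/-- There is an infinite conformal iterated function system on the line, made of similarities of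
an interval, whose dimension spectrum is of none of the three types. -/
theorem result : ∃ (E : Type) (X : Set ℝ) (φ : E → ℝ → ℝ), Infinite E ∧ IsCIFS X φ ∧
    (∀ e, ∃ b r : ℝ, 0 < r ∧ ∀ x, φ e x = b + r * x) ∧
    ¬ TypeI (spectrum X φ) ∧ ¬ TypeII (spectrum X φ) ∧ ¬ TypeIII (spectrum X φ) := by
  refine ⟨Al, Icc 0 1, φ, ?_, isCIFS, fun e => ⟨b e, r e, r_pos e, fun x => rfl⟩, not_typeI,
    not_typeII, not_typeIII⟩
  exact Infinite.of_injective (fun k : ℕ => (⟨k, ⟨0, m_pos k⟩⟩ : Al)) fun j k h => by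
    simpa using congrArg Sigma.fst h

end Pool.Agent.Results.MP_b5d711_an.NoType
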